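import Mathlib
import Pool.Agent.P.MP_61d55c_co.CR.A
import Pool.Agent.P.MP_61d55c_co.CR.B

set_option autoImplicit false

namespace Pool.Agent.Results.MP_61d55c_co.CompleteRange

open Pool.Agent.P.MP_61d55c_co

/-- For `d ≥ 4` and `d + 1 ≤ n ≤ 2 ^ (d - 1) + 2` the maximal number of 0-antipodal vertex pairs
of a `d`-polytope with `n` vertices is the number of all pairs. -/
theorem result (d n : ℕ) (hd : 4 ≤ d) (h1 : d + 1 ≤ n) (h2 : n ≤ 2 ^ (d - 1) + 2) :
    e0 d n = n.choose 2 := by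
  obtain ⟨m, rfl⟩ : ∃ m, d = m + 1 := ⟨d - 1, by omega⟩
  obtain ⟨I, _, Y, hc, hY, hs⟩ := CR.big m (by omega)
  exact CR.range Y (by omega) hY hs h1 (by rw [hc]; simpa using h2)

end Pool.Agent.Results.MP_61d55c_co.CompleteRange
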