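import Mathlib
import Pool.Agent.P.MP_61d55c_co.Ex.Lower

set_option autoImplicit false

namespace Pool.Agent.Results.MP_61d55c_co.Exact

open Pool.Agent.P.MP_61d55c_co

/-- The maximal number of 0-antipodal vertex pairs of a 3-polytope with `n ≥ 4` vertices is
`⌊(n + 2) (n - 1) / 3⌋`, except that it is `10` for `n = 5` and `14` for `n = 6`. -/
theorem result (n : ℕ) (hn : 4 ≤ n) :
    e0 3 n = if n = 5 then 10 else if n = 6 then 14 else (n + 2) * (n - 1) / 3 := by
  split_ifs with h5 h6
  · exact h5 ▸ le_antisymm Ex.upper5 Ex.lower5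
  · exact h6 ▸ le_antisymm Ex.upper6 Ex.lower6
  · refine le_antisymm ?_ (Ex.lowerN hn)
    rcases (by omega : n = 4 ∨ 7 ≤ n) with rfl | h
    · exact Ex.upper4
    · exact Ex.upper7 h

end Pool.Agent.Results.MP_61d55c_co.Exact
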