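import Mathlib
import Pool.Agent.P.MP_61d55c_co.MP.Fin

set_option autoImplicit false

namespace Pool.Agent.Results.MP_61d55c_co.ManyParts

open Pool.Agent.P.MP_61d55c_co

/-- For `d ≥ 5` and `n ≥ d + 1` the maximal number of 0-antipodal vertex pairs of a `d`-polytope
with `n` vertices is at least the number of edges of the Turan graph on `n` vertices with
`5 * 2 ^ (d - 4)` parts. -/
theorem result (d n : ℕ) (hd : 5 ≤ d) (hn : d + 1 ≤ n) :
    (SimpleGraph.turanGraph n (5 * 2 ^ (d - 4))).edgeSet.ncard ≤ e0 d n := by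
  obtain ⟨m, rfl⟩ : ∃ m, d = 4 + m + 1 := ⟨d - 5, by omega⟩
  rw [show 4 + m + 1 - 4 = m + 1 by omega, show 5 * 2 ^ (m + 1) = 10 * 2 ^ m by ring]
  exact MP.turan m n hn

end Pool.Agent.Results.MP_61d55c_co.ManyParts
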