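import Mathlib
import Pool.Agent.P.MP_61d55c_co.SG.L1
import Pool.Agent.P.MP_61d55c_co.SG.LR
import Pool.Agent.P.MP_61d55c_co.SG.LS
import Pool.Agent.P.MP_61d55c_co.SG.LA
import Pool.Agent.P.MP_61d55c_co.SG.S2
import Pool.Agent.P.MP_61d55c_co.SG.PA
import Pool.Agent.P.MP_61d55c_co.SG.PB
import Pool.Agent.P.MP_61d55c_co.SG.PC
import Pool.Agent.P.MP_61d55c_co.SG.S4
import Pool.Agent.P.MP_61d55c_co.SG.CORE
import Pool.Agent.P.MP_61d55c_co.SG.LIFT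
import Pool.Agent.P.MP_61d55c_co.SG.FIN

set_option autoImplicit false

namespace Pool.Agent.Results.MP_61d55c_co.StrictGap

open Pool.Agent.P.MP_61d55c_co

/-- A `d`-polytope with `n` vertices has at most `(1 - 1 / K) n ^ 2 / 2` pairs of 0-antipodal
vertices, where `K = (1 - 1 / (10 ^ 215 (d + 1) ^ 84)) 2 ^ d`. -/
theorem result (d : ℕ) (hd : 2 ≤ d) (n : ℕ) :
    (e0 d n : ℝ) ≤
      (1 - 1 / ((1 - 1 / (10 ^ 215 * ((d : ℝ) + 1) ^ 84)) * 2 ^ d)) * (n : ℝ) ^ 2 / 2 :=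
  SG.p_FIN (SG.p_LIFT (SG.p_CORE SG.p_L1 SG.p_LR SG.p_LI (SG.p_S2 SG.p_LR)
    (SG.p_PC SG.p_PA (SG.p_PB SG.p_LS)) (SG.p_S4 (SG.p_LA SG.p_LS)))) d hd n

end Pool.Agent.Results.MP_61d55c_co.StrictGap
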